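import Pool.Agent.W838.DC.Clm
import Pool.Agent.W838.DC.TabChk

/-!
# DC2-CLMA: soundness of the finite check
-/

set_option autoImplicit false

namespace Pool.Agent.W318.DC

open Pool.Agent.W838.DC Pool.Agent.W838.DC.Sys Pool.Agent.W838.DC.Tab

theorem mem_r6 (k : ℕ) : k ∈ r6 ↔ k < 6 := by
  unfold r6
  simp only [List.mem_cons, List.not_mem_nil, or_false]
  omega

theorem mem_r24 (k : ℕ) : k ∈ r24 ↔ k < 24 := by
  unfold r24
  simp only [List.mem_cons, List.not_mem_nil, or_false]
  omega

theorem bit_eq (m y : ℕ) : bit m y = m.testBit y := by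
  unfold bit
  rw [Nat.testBit_eq_decide_div_mod_eq, Nat.shiftRight_eq_div_pow]
  rfl

theorem bit_one (t y : ℕ) : bit (1 <<< t) y = true ↔ y = t := by
  rw [bit_eq, Nat.one_shiftLeft, Nat.testBit_two_pow, decide_eq_true_eq]
  exact eq_comm

theorem bit_or (m t y : ℕ) : bit (m ||| (1 <<< t)) y = true ↔ bit m y = true ∨ y = t := by
  rw [bit_eq, Nat.testBit_or, Bool.or_eq_true, ← bit_eq, ← bit_eq, bit_one]

theorem bit_zero (y : ℕ) : bit 0 y = false := by
  rw [bit_eq, Nat.zero_testBit]

variable {V X : Type*} [AddCommGroup V] {σ : Sys V X}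

theorem sval_mk (sl : Slice σ) (h : X → V → ℤ) (y z : ℕ) (hz : z < 6) :
    sval sl h (6 * y + z) = h (sl.e y) (sl.ρ z) := by
  unfold sval
  have h1 : (6 * y + z) / 6 = y := by omega
  have h2 : (6 * y + z) % 6 = z := by omega
  rw [h1, h2]

/-- an edge is sound -/
def SndE (sl : Slice σ) (h : X → V → ℤ) (q : ℕ × ℕ × Bool) : Prop :=
  sval sl h q.2.1 ≤ sval sl h q.1 ∧ (q.2.2 = true → sval sl h q.2.1 < sval sl h q.1)

theorem snd_le (sl : Slice σ) (h : X → V → ℤ) (a b : ℕ) (hab : sval sl h b ≤ sval sl h a) :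
    SndE sl h (a, b, false) := ⟨hab, fun hf => absurd hf (by simp)⟩

theorem snd_lt (sl : Slice σ) (h : X → V → ℤ) (a b : ℕ) (hab : sval sl h b < sval sl h a) :
    SndE sl h (a, b, true) := ⟨hab.le, fun _ => hab⟩

/-- soundness of the edges -/
theorem edges_sound (h3 : S_TR σ) (h : X → V → ℤ) (hp : σ.IsPot h) (sl : Slice σ) (Y : ℕ)
    (hY : ∀ g < 24, (bit Y g = true ↔ σ.P (sl.e g))) (y : ℕ) (hy : y < 24) (lvl : ℕ)
    (c1 : 1 ≤ lvl → Claims1 σ h (sl.e y)) (c2 : 2 ≤ lvl → σ.Claims h (sl.e y)) :
    ∀ q ∈ edgesAt Y y lvl, SndE sl h q := by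
  intro q hq
  obtain ⟨-, htr⟩ := h3 sl Y hY y hy
  unfold edgesAt at hq
  rw [List.mem_flatMap] at hq
  obtain ⟨z, hz, hq⟩ := hq
  rw [mem_r6] at hz
  obtain ⟨tz, -, -, tzb⟩ := htr z hz
  by_cases hpz : psi Y y z = true
  swap
  · rw [if_neg hpz] at hq
    exact absurd hq List.not_mem_nil
  rw [if_pos hpz, List.mem_flatMap] at hq
  obtain ⟨b, hb, hq⟩ := hq
  rw [mem_r6] at hb
  obtain ⟨tb, -, -, -⟩ := htr b hb
  obtain ⟨tarr, tdbl, tc6⟩ := tzb b hb
  have Tz : sl.e (T y z) = σ.r (sl.ρ z) (sl.e y) := (sl.eT y hy z hz).symm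
  have Tb : sl.e (T y b) = σ.r (sl.ρ b) (sl.e y) := (sl.eT y hy b hb).symm
  have hPz : σ.Psi (sl.e y) (sl.ρ z) := tz.1 hpz
  by_cases hzb : (z == b || !(psi Y y b)) = true
  · rw [if_pos hzb] at hq
    exact absurd hq List.not_mem_nil
  rw [if_neg hzb] at hq
  have hpb : psi Y y b = true := by
    by_contra hcon
    apply hzb
    rw [Bool.not_eq_true] at hcon
    rw [hcon]
    simp
  have hPb : σ.Psi (sl.e y) (sl.ρ b) := tb.1 hpb
  by_cases hip1 : (ipN z b == 1) = true
  · rw [if_pos hip1] at hq
    rw [beq_iff_eq] at hip1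
    by_cases hl : 1 ≤ lvl
    · rw [if_pos hl, List.mem_singleton] at hq
      subst hq
      apply snd_le
      rw [sval_mk _ _ _ _ hz, sval_mk _ _ _ _ hz, Tb]
      refine (c1 hl).perp _ _ hPz hPb ?_
      rw [sl.ipρ z hz b hb, hip1]
      norm_num
    · rw [if_neg hl] at hq
      exact absurd hq List.not_mem_nil
  rw [if_neg hip1] at hq
  by_cases hip0 : (ipN z b == 0) = true
  · rw [if_pos hip0] at hq
    rw [beq_iff_eq] at hip0
    have hab : addN z b < 6 := addN_lt z hz b hb hip0
    have haρ : sl.ρ z + sl.ρ b = sl.ρ (addN z b) := sl.addρ z hz b hb (by omega)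
    by_cases hbt : bit Y (T y (addN z b)) = true
    · rw [if_pos hbt] at hq
      have hc6 : σ.C6 (sl.e y) (sl.ρ z) (sl.ρ b) := by
        rw [← tc6]
        unfold c6
        rw [hpz, hpb, hbt, hip0]
        rfl
      by_cases hl : 1 ≤ lvl
      · rw [if_pos hl] at hq
        have m3 := (c1 hl).M3 _ _ hc6
        have m4 := (c1 hl).M4 _ _ hc6
        rw [haρ, ← Tb] at m3 m4
        rw [List.mem_append] at hq
        rcases hq with hq | hq
        · simp only [List.mem_cons, List.not_mem_nil, or_false] at hq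
          rcases hq with rfl | rfl | rfl | rfl
          · apply snd_le
            rw [sval_mk _ _ _ _ hab, sval_mk _ _ _ _ hz, m3]
          · apply snd_le
            rw [sval_mk _ _ _ _ hab, sval_mk _ _ _ _ hz, m3]
          · apply snd_le
            rw [sval_mk _ _ _ _ hab, sval_mk _ _ _ _ hz, m4]
          · apply snd_le
            rw [sval_mk _ _ _ _ hab, sval_mk _ _ _ _ hz, m4]
        · by_cases hl2 : 2 ≤ lvl
          · rw [if_pos hl2, List.mem_singleton] at hq
            subst hq
            apply snd_le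
            rw [sval_mk _ _ _ _ hab, sval_mk _ _ _ _ hz, ← haρ]
            exact (c2 hl2).C9 _ _ hc6
          · rw [if_neg hl2] at hq
            exact absurd hq List.not_mem_nil
      · rw [if_neg hl] at hq
        exact absurd hq List.not_mem_nil
    · rw [if_neg hbt] at hq
      by_cases hbt2 : bit Y (T (T y b) z) = true
      · rw [if_pos hbt2] at hq
        have harr : σ.Arr (sl.e y) (sl.ρ z) (sl.ρ b) := by
          rw [← tarr]
          unfold arr
          rw [Bool.not_eq_true] at hbt
          rw [hpz, hpb, hbt, hip0, hbt2]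
          rfl
        rw [List.mem_cons] at hq
        rcases hq with rfl | hq
        · apply snd_le
          rw [sval_mk _ _ _ _ hz, sval_mk _ _ _ _ hz, Tb]
          exact hp.step _ _ _ harr
        · by_cases hl : 1 ≤ lvl
          · rw [if_pos hl] at hq
            have p1 := (c1 hl).P1 _ _ harr
            have m1 := (c1 hl).M1 _ _ harr
            rw [haρ, ← Tz] at m1
            rw [← Tb] at p1
            simp only [List.mem_cons, List.not_mem_nil, or_false] at hq
            rcases hq with rfl | rfl | rfl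
            · apply snd_lt
              rw [sval_mk _ _ _ _ hz, sval_mk _ _ _ _ hb]
              exact p1
            · apply snd_le
              rw [sval_mk _ _ _ _ hab, sval_mk _ _ _ _ hb, m1]
            · apply snd_le
              rw [sval_mk _ _ _ _ hab, sval_mk _ _ _ _ hb, m1]
          · rw [if_neg hl] at hq
            exact absurd hq List.not_mem_nil
      · rw [if_neg hbt2] at hq
        exact absurd hq List.not_mem_nil
  rw [if_neg hip0] at hq
  by_cases hd : dbl Y y z b = true
  · rw [if_pos hd] at hq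
    have hdbl := tdbl.1 hd
    have hsub : subN b z ≠ 7 := by
      unfold dbl at hd
      simp only [Bool.and_eq_true, bne_iff_ne] at hd
      exact hd.1.2
    have hsl : subN b z < 6 := subN_lt b hb z hz hsub
    have hsρ : sl.ρ b - sl.ρ z = sl.ρ (subN b z) := sl.subρ b hb z hz hsub
    by_cases hl : 1 ≤ lvl
    · rw [if_pos hl] at hq
      have m2 := (c1 hl).M2 _ _ hdbl
      rw [hsρ, ← Tz] at m2
      rw [List.mem_append] at hq
      rcases hq with hq | hq
      · simp only [List.mem_cons, List.not_mem_nil, or_false] at hq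
        rcases hq with rfl | rfl
        · apply snd_le
          rw [sval_mk _ _ _ _ hsl, sval_mk _ _ _ _ hb, m2]
        · apply snd_le
          rw [sval_mk _ _ _ _ hsl, sval_mk _ _ _ _ hb, m2]
      · by_cases hl2 : 2 ≤ lvl
        · rw [if_pos hl2] at hq
          simp only [List.mem_cons, List.not_mem_nil, or_false] at hq
          rcases hq with rfl | rfl
          · apply snd_le
            rw [sval_mk _ _ _ _ hz, sval_mk _ _ _ _ hz, Tb]
            exact (c2 hl2).D2 _ _ hdbl
          · apply snd_le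
            rw [sval_mk _ _ _ _ hz, sval_mk _ _ _ _ hb]
            exact (c2 hl2).P2 _ _ hdbl
        · rw [if_neg hl2] at hq
          exact absurd hq List.not_mem_nil
    · rw [if_neg hl] at hq
      exact absurd hq List.not_mem_nil
  · rw [if_neg hd] at hq
    exact absurd hq List.not_mem_nil

theorem Claims.toClaims1 {h : X → V → ℤ} {x : X} (c : σ.Claims h x) : Claims1 σ h x :=
  ⟨c.perp, c.P1, c.M1, c.M2, c.M3, c.M4⟩

/-! ### The upward closure -/

/-- all elements of the mask are reachable -/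
def Inv (sl : Slice σ) (g U : ℕ) : Prop :=
  ∀ y, bit U y = true → y < 24 ∧ σ.Reach (sl.e g) (sl.e y)

theorem inv_step (h3 : S_TR σ) (sl : Slice σ) (Y : ℕ)
    (hY : ∀ g < 24, (bit Y g = true ↔ σ.P (sl.e g))) (g U : ℕ) (hU : Inv sl g U) :
    Inv sl g (upStep Y U) := by
  unfold upStep
  refine List.foldlRecOn r24 _ hU ?_
  intro acc hacc y _
  split_ifs with hbu
  · refine List.foldlRecOn r6 _ hacc ?_
    intro acc' hacc' k hk
    rw [mem_r6] at hk
    split_ifs with hps
    · intro y' hy'
      rw [bit_or] at hy'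
      rcases hy' with h | rfl
      · exact hacc' y' h
      · obtain ⟨hy1, hy2⟩ := hU y hbu
        refine ⟨T_lt y hy1 k hk, ?_⟩
        obtain ⟨-, htr⟩ := h3 sl Y hY y hy1
        have hpsi := (htr k hk).1.1 hps
        refine hy2.trans ?_
        rw [← sl.eT y hy1 k hk]
        exact Reach.single hpsi
    · exact hacc'
  · exact hacc

theorem inv_up (h3 : S_TR σ) (sl : Slice σ) (Y : ℕ)
    (hY : ∀ g < 24, (bit Y g = true ↔ σ.P (sl.e g))) (g : ℕ) (hg : g < 24) :
    Inv sl g (upMask Y g) := by
  have h0 : Inv sl g (1 <<< g) := by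
    intro y hy
    rw [bit_one] at hy
    subst hy
    exact ⟨hg, Reach.refl σ _⟩
  unfold upMask
  have st := fun U hU => inv_step h3 sl Y hY g U hU
  exact st _ (st _ (st _ (st _ (st _ (st _ h0)))))

/-! ### The closure of the edges -/

/-- invariant of the pair of masks -/
def Cl (sl : Slice σ) (h : X → V → ℤ) (a : ℕ) (m : ℕ × ℕ) : Prop :=
  (∀ s, bit m.1 s = true → sval sl h s ≤ sval sl h a) ∧
    ∀ s, bit m.2 s = true → sval sl h s < sval sl h a

theorem cl_step (sl : Slice σ) (h : X → V → ℤ) (a : ℕ) (E : List (ℕ × ℕ × Bool))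
    (hE : ∀ q ∈ E, SndE sl h q) (m : ℕ × ℕ) (hm : Cl sl h a m) : Cl sl h a (clStep E m) := by
  unfold clStep
  refine List.foldlRecOn E _ hm ?_
  intro m' hm' q hq
  obtain ⟨e1, e2⟩ := hE q hq
  constructor
  · intro s hs
    simp only at hs
    split_ifs at hs with hb
    · rw [bit_or] at hs
      rcases hs with hs | rfl
      · exact hm'.1 s hs
      · exact e1.trans (hm'.1 _ hb)
    · exact hm'.1 s hs
  · intro s hs
    simp only at hs
    split_ifs at hs with hb
    · rw [bit_or] at hs
      rcases hs with hs | rfl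
      · exact hm'.2 s hs
      · rw [Bool.or_eq_true, Bool.and_eq_true] at hb
        rcases hb with hb | ⟨hb1, hb2⟩
        · exact lt_of_le_of_lt e1 (hm'.2 _ hb)
        · exact lt_of_lt_of_le (e2 hb1) (hm'.1 _ hb2)
    · exact hm'.2 s hs

theorem cl_iter (sl : Slice σ) (h : X → V → ℤ) (a : ℕ) (E : List (ℕ × ℕ × Bool))
    (hE : ∀ q ∈ E, SndE sl h q) : ∀ (k : ℕ) (m : ℕ × ℕ), Cl sl h a m → Cl sl h a (clIter E k m) := by
  intro k
  induction k with
  | zero => exact fun m hm => hm
  | succ k ih => exact fun m hm => ih _ (cl_step sl h a E hE m hm)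

theorem cl_zero (sl : Slice σ) (h : X → V → ℤ) (a : ℕ) : Cl sl h a (1 <<< a, 0) := by
  constructor
  · intro s hs
    simp only at hs
    rw [bit_one] at hs
    rw [hs]
  · intro s hs
    simp only at hs
    rw [bit_zero] at hs
    exact absurd hs (by simp)

/-! ### The goals -/

theorem goal_lt (Y g stage a y γ : ℕ) (st : Bool) (hq : (a, y, γ, st) ∈ goalsAt Y g stage) :
    γ < 6 := by
  unfold goalsAt at hq
  rw [List.mem_flatMap] at hq
  obtain ⟨z, hz, hq⟩ := hq
  rw [mem_r6] at hz
  by_cases hpz : psi Y g z = true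
  swap
  · rw [if_neg hpz] at hq
    exact absurd hq List.not_mem_nil
  rw [if_pos hpz, List.mem_flatMap] at hq
  obtain ⟨b, hb, hq⟩ := hq
  rw [mem_r6] at hb
  by_cases hzb : (z == b || !(psi Y g b)) = true
  · rw [if_pos hzb] at hq
    exact absurd hq List.not_mem_nil
  rw [if_neg hzb] at hq
  by_cases hip1 : (ipN z b == 1) = true
  · rw [if_pos hip1] at hq
    split_ifs at hq
    · simp only [List.mem_cons, List.not_mem_nil, or_false, Prod.mk.injEq] at hq
      omega
    · exact absurd hq List.not_mem_nil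
  rw [if_neg hip1] at hq
  by_cases hip0 : (ipN z b == 0) = true
  · rw [if_pos hip0] at hq
    rw [beq_iff_eq] at hip0
    have hab : addN z b < 6 := addN_lt z hz b hb hip0
    split_ifs at hq <;>
      simp only [List.mem_cons, List.not_mem_nil, or_false, Prod.mk.injEq] at hq <;> omega
  rw [if_neg hip0] at hq
  by_cases hd : dbl Y g z b = true
  · rw [if_pos hd] at hq
    have hsub : subN b z ≠ 7 := by
      unfold dbl at hd
      simp only [Bool.and_eq_true, bne_iff_ne] at hd
      exact hd.1.2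
    have hsl : subN b z < 6 := subN_lt b hb z hz hsub
    split_ifs at hq <;>
      simp only [List.mem_cons, List.not_mem_nil, or_false, Prod.mk.injEq] at hq <;> omega
  · rw [if_neg hd] at hq
    exact absurd hq List.not_mem_nil

theorem goals_ok (h3 : S_TR σ) (h : X → V → ℤ) (hp : σ.IsPot h) (sl : Slice σ) (Y : ℕ)
    (hY : ∀ g < 24, (bit Y g = true ↔ σ.P (sl.e g))) (g : ℕ) (hg : g < 24) (stage : ℕ)
    (hst : 1 ≤ stage) (hst2 : stage ≤ 2) (hchk : chkCLM stage Y g = true)
    (hcl : ∀ y < 24, y ≠ g → σ.Reach (sl.e g) (sl.e y) → σ.Claims h (sl.e y))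
    (hc1 : 2 ≤ stage → Claims1 σ h (sl.e g)) : GoalsOK sl h Y g stage := by
  intro a y γ st hq f hf harr
  unfold chkCLM at hchk
  rw [List.all_eq_true] at hchk
  have h1 := hchk _ hq
  rw [List.all_eq_true] at h1
  have h2 := h1 f ((mem_r6 f).2 hf)
  simp only at h2
  rw [harr, Bool.not_true, Bool.false_or] at h2
  set E := ((r24.filter fun y => y != g && bit (upMask Y g) y).flatMap fun y => edgesAt Y y 2) ++
        edgesAt Y g (stage - 1) with hEdef
  have hE : ∀ q ∈ E, SndE sl h q := by
    intro q hq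
    rw [hEdef, List.mem_append] at hq
    rcases hq with hq | hq
    · rw [List.mem_flatMap] at hq
      obtain ⟨y', hy', hq⟩ := hq
      rw [List.mem_filter, Bool.and_eq_true, bne_iff_ne] at hy'
      obtain ⟨-, hne, hup⟩ := hy'
      obtain ⟨hlt, hre⟩ := inv_up h3 sl Y hY g hg y' hup
      have hc := hcl y' hlt hne hre
      exact edges_sound h3 h hp sl Y hY y' hlt 2 (fun _ => Claims.toClaims1 hc) (fun _ => hc) q hq
    · exact edges_sound h3 h hp sl Y hY g hg (stage - 1) (fun hh => hc1 (by omega))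
        (fun hh => absurd hh (by omega)) q hq
  have hcl' := cl_iter sl h a E hE 6 _ (cl_zero sl h a)
  have hγ := goal_lt Y g stage a y γ st hq
  rw [← sval_mk sl h (T y f) γ hγ]
  cases st with
  | true =>
    simp only [if_true] at h2
    have := hcl'.2 _ h2
    exact ⟨this.le, fun _ => this⟩
  | false =>
    simp only [Bool.false_eq_true, if_false] at h2
    exact ⟨hcl'.1 _ h2, fun hh => absurd hh (by simp)⟩

theorem run_mem (chk : ℕ → ℕ → Bool) (hr : runYM chk = true) (Y m g : ℕ) (hY : (Y, m) ∈ YM)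
    (hg : g < 24) (hb : bit m g = true) : chk Y g = true := by
  unfold runYM at hr
  rw [List.all_eq_true] at hr
  have h1 := hr _ hY
  rw [List.all_eq_true] at h1
  have h2 := h1 g ((mem_r24 g).2 hg)
  simp only at h2
  rw [hb, Bool.not_true, Bool.false_or] at h2
  exact h2

variable (σ)

/-- CLMA: the finite check, translated -/
theorem clma (_h0 : S_CNT σ) (_h2 : S_SLY σ) (h3 : S_TR σ) : S_CLMA σ := by
  intro h hp sl Y m hs g hg hb hcl
  constructor
  · exact goals_ok h3 h hp sl Y hs.P g hg 1 le_rfl (by norm_num)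
      (run_mem _ chkCLM1_true Y m g hs.mem hg hb) hcl (fun hh => absurd hh (by norm_num))
  · intro hc1
    exact goals_ok h3 h hp sl Y hs.P g hg 2 (by norm_num) le_rfl
      (run_mem _ chkCLM2_true Y m g hs.mem hg hb) hcl (fun _ => hc1)

end Pool.Agent.W318.DC
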